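import Pool.Agent.VM5.Stmts
import Pool.Agent.Helper98_VM5.Kit

/-! EN3: the pairs with the same `d`, the same `Z` and different `v`. -/

set_option autoImplicit false

namespace Pool.Agent.VM5.H43

open Pool.Agent.VM (Nr)
open Pool.Agent.VM5.Kit

theorem mem_P3g {N : ℕ} {S : Finset ℕ} {p : ℕ × ℕ × ℕ × ℤ} (hp : p ∈ P3g N S) :
    1 ≤ p.1 ∧ p.1 ≤ N ∧ 1 ≤ p.2.1 ∧ p.2.1 ≤ N ∧ p.2.2.1 ∈ S ∧ |p.2.2.2| ≤ (N : ℤ) := by
  unfold P3g P3 at hp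
  simp only [Finset.mem_filter, Finset.mem_product, Finset.mem_Icc] at hp
  obtain ⟨⟨⟨a, b⟩, ⟨c, d⟩, e, f, g⟩, _⟩ := hp
  exact ⟨a, b, c, d, e, abs_le.mpr ⟨f, g⟩⟩

/-- the number of integers in a class modulo `d` -/
theorem card_class (X d : ℕ) (hd : 1 ≤ d) (c : ℤ) :
    (Nat.card {z : ℤ // |z| ≤ (X : ℤ) ∧ (d : ℤ) ∣ z - c} : ℝ) ≤ 1 + 2 * (X : ℝ) / (d : ℝ) := by
  have hfin : {z : ℤ | |z| ≤ (X : ℤ) ∧ (d : ℤ) ∣ z - c}.Finite := by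
    refine (Set.finite_Icc (-(X : ℤ)) (X : ℤ)).subset ?_
    intro z hz
    exact ⟨(abs_le.mp hz.1).1, (abs_le.mp hz.1).2⟩
  refine card_dvd_spaced (P := fun z : ℤ => |z| ≤ (X : ℤ) ∧ (d : ℤ) ∣ z - c) hfin d
    (2 * (X : ℝ)) hd (by positivity) ?_ ?_
  · rintro x y ⟨_, hx⟩ ⟨_, hy⟩
    have := dvd_sub hx hy
    have e : x - c - (y - c) = x - y := by ring
    rwa [e] at this
  · rintro x y ⟨hx, _⟩ ⟨hy, _⟩
    have hx' : |(x : ℝ)| ≤ (X : ℝ) := by exact_mod_cast hx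
    have hy' : |(y : ℝ)| ≤ (X : ℝ) := by exact_mod_cast hy
    have := abs_sub (x : ℝ) (y : ℝ)
    linarith

/-- the key of a pair: `(d, n)` -/
def kdn (v : (ℕ × ℕ × ℕ × ℤ) × (ℕ × ℕ × ℕ × ℤ)) : ℕ × ℤ := (v.1.2.2.1, V3 v.1 - V3 v.2)

/-- the quadruple `(h₁, h₂, h₁', h₂')` -/
def kq (v : (ℕ × ℕ × ℕ × ℤ) × (ℕ × ℕ × ℕ × ℤ)) : (ℕ × ℕ) × (ℕ × ℕ) :=
  ((v.1.1, v.1.2.1), (v.2.1, v.2.2.1))

/-- two pairs with the same `d`, the same quadruple and the same `Z` -/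
theorem pair_ext {v w : (ℕ × ℕ × ℕ × ℤ) × (ℕ × ℕ × ℕ × ℤ)}
    (hv : v.1.2.2.1 = v.2.2.2.1) (hvZ : Z3 v.1 = Z3 v.2)
    (hw : w.1.2.2.1 = w.2.2.2.1) (hwZ : Z3 w.1 = Z3 w.2)
    (hk : kdn v = kdn w) (hq : kq v = kq w) (hZ : Z3 v.1 = Z3 w.1) : v = w := by
  obtain ⟨⟨a, b, d, r⟩, ⟨a', b', d', r'⟩⟩ := v
  obtain ⟨⟨x, y, e, s⟩, ⟨x', y', e', s'⟩⟩ := w
  simp only [kdn, kq, Prod.mk.injEq, Z3] at *
  obtain ⟨h1, h2⟩ := hk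
  obtain ⟨⟨h3, h4⟩, h5, h6⟩ := hq
  subst h1 h3 h4 h5 h6
  have h7 : r = s := by linarith
  have h8 : r' = s' := by linarith
  subst h7 h8
  refine ⟨⟨rfl, rfl, rfl, rfl⟩, rfl, rfl, ?_, rfl⟩
  omega

theorem fin_pairs {N : ℕ} {S : Finset ℕ} {P : (ℕ × ℕ × ℕ × ℤ) × (ℕ × ℕ × ℕ × ℤ) → Prop}
    (hP : ∀ v, P v → v.1 ∈ P3g N S ∧ v.2 ∈ P3g N S) : {v | P v}.Finite := by
  refine ((P3g N S ×ˢ P3g N S).finite_toSet).subset ?_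
  intro v hv
  have := hP v hv
  simp only [Finset.coe_product, Set.mem_prod, Finset.mem_coe]
  exact this

theorem assemble {N : ℕ} {S : Finset ℕ} {t η A B m : ℝ} {i : ℕ}
    (P : (ℕ × ℕ × ℕ × ℤ) × (ℕ × ℕ × ℕ × ℤ) → Prop)
    (hP : ∀ v, P v → v.1 ∈ P3g N S ∧ v.2 ∈ P3g N S ∧ V3 v.1 ≠ V3 v.2)
    (hPn : ∀ v, P v → Nr (t * ((20 * (v.1.2.2.1 : ℤ) ^ i * (V3 v.1 - V3 v.2) : ℤ) : ℝ)) η)
    (hA : (Nat.card {x : ℕ × ℤ // x.1 ∈ S ∧ x.2 ≠ 0 ∧ |x.2| ≤ (N : ℤ) ^ 2 ∧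
        Nr (t * ((20 * (x.1 : ℤ) ^ i * x.2 : ℤ) : ℝ)) η} : ℝ) ≤ A)
    (hB : ∀ n : ℤ, (Nat.card {x : (ℕ × ℕ) × (ℕ × ℕ) // 1 ≤ x.1.1 ∧ x.1.1 ≤ N ∧ 1 ≤ x.1.2 ∧
      x.1.2 ≤ N ∧ 1 ≤ x.2.1 ∧ x.2.1 ≤ N ∧ 1 ≤ x.2.2 ∧ x.2.2 ≤ N ∧
      (x.1.1 : ℤ) * (x.1.2 : ℤ) - (x.2.1 : ℤ) * (x.2.2 : ℤ) = n} : ℝ) ≤ B)
    (hm0 : 0 ≤ m)
    (hm : ∀ y ∈ S, ∀ n : ℤ, ∀ x : (ℕ × ℕ) × (ℕ × ℕ),
      (Nat.card {v // (P v ∧ kdn v = (y, n)) ∧ kq v = x} : ℝ) ≤ m) :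
    (Nat.card {v // P v} : ℝ) ≤ A * (B * m) := by
  have hB0 : 0 ≤ B := le_trans (Nat.cast_nonneg _) (hB 0)
  have hfP : {v | P v}.Finite := fin_pairs (fun v hv => ⟨(hP v hv).1, (hP v hv).2.1⟩)
  have hfA : {x : ℕ × ℤ | x.1 ∈ S ∧ x.2 ≠ 0 ∧ |x.2| ≤ (N : ℤ) ^ 2 ∧
        Nr (t * ((20 * (x.1 : ℤ) ^ i * x.2 : ℤ) : ℝ)) η}.Finite := by
    refine ((S.finite_toSet).prod (Set.finite_Icc (-((N : ℤ) ^ 2)) ((N : ℤ) ^ 2))).subset ?_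
    rintro ⟨a, b⟩ ⟨h1, _, h2, _⟩
    exact ⟨h1, (abs_le.mp h2).1, (abs_le.mp h2).2⟩
  have hfB : ∀ n : ℤ, {x : (ℕ × ℕ) × (ℕ × ℕ) | 1 ≤ x.1.1 ∧ x.1.1 ≤ N ∧ 1 ≤ x.1.2 ∧
      x.1.2 ≤ N ∧ 1 ≤ x.2.1 ∧ x.2.1 ≤ N ∧ 1 ≤ x.2.2 ∧ x.2.2 ≤ N ∧
      (x.1.1 : ℤ) * (x.1.2 : ℤ) - (x.2.1 : ℤ) * (x.2.2 : ℤ) = n}.Finite := by
    intro n
    refine (((Set.finite_Icc 1 N).prod (Set.finite_Icc 1 N)).prod
      ((Set.finite_Icc 1 N).prod (Set.finite_Icc 1 N))).subset ?_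
    rintro ⟨⟨a, b⟩, ⟨c, d⟩⟩ ⟨h1, h2, h3, h4, h5, h6, h7, h8, _⟩
    exact ⟨⟨⟨h1, h2⟩, ⟨h3, h4⟩⟩, ⟨⟨h5, h6⟩, ⟨h7, h8⟩⟩⟩
  have hsize : ∀ p ∈ P3g N S, 1 ≤ V3 p ∧ V3 p ≤ (N : ℤ) ^ 2 := by
    intro p hp
    obtain ⟨h1, h2, h3, h4, _⟩ := mem_P3g hp
    have h1' : (1 : ℤ) ≤ (p.1 : ℤ) := by exact_mod_cast h1
    have h2' : (p.1 : ℤ) ≤ N := by exact_mod_cast h2
    have h3' : (1 : ℤ) ≤ (p.2.1 : ℤ) := by exact_mod_cast h3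
    have h4' : (p.2.1 : ℤ) ≤ N := by exact_mod_cast h4
    unfold V3
    constructor
    · nlinarith
    · nlinarith
  have step : (Nat.card {v // P v} : ℝ) ≤
      (Nat.card {x : ℕ × ℤ // x.1 ∈ S ∧ x.2 ≠ 0 ∧ |x.2| ≤ (N : ℤ) ^ 2 ∧
        Nr (t * ((20 * (x.1 : ℤ) ^ i * x.2 : ℤ) : ℝ)) η} : ℝ) * (B * m) := by
    refine card_fib_le' hfP hfA kdn (B * m) ?_ ?_
    · intro v hv
      obtain ⟨h1, h2, h3⟩ := hP v hv
      refine ⟨(mem_P3g h1).2.2.2.2.1, sub_ne_zero.mpr h3, ?_, hPn v hv⟩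
      have a := hsize _ h1
      have b := hsize _ h2
      show |V3 v.1 - V3 v.2| ≤ (N : ℤ) ^ 2
      rw [abs_le]
      constructor <;> linarith [a.1, a.2, b.1, b.2]
    · rintro ⟨d, n⟩ ⟨hd, _, _, _⟩
      have hf2 : {v | P v ∧ kdn v = (d, n)}.Finite := hfP.subset (fun v hv => hv.1)
      have h1 := card_fib_le' (P := fun v => P v ∧ kdn v = (d, n)) hf2 (hfB n) kq m ?_ ?_
      · refine h1.trans ?_
        exact mul_le_mul_of_nonneg_right (hB n) hm0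
      · rintro v ⟨hv, hk⟩
        obtain ⟨h1, h2, _⟩ := hP v hv
        obtain ⟨a1, a2, a3, a4, _⟩ := mem_P3g h1
        obtain ⟨b1, b2, b3, b4, _⟩ := mem_P3g h2
        refine ⟨a1, a2, a3, a4, b1, b2, b3, b4, ?_⟩
        have := congrArg Prod.snd hk
        simpa [kdn, V3, kq] using this
      · intro x _
        exact hm d hd n x
  exact step.trans (mul_le_mul_of_nonneg_right hA (mul_nonneg hB0 hm0))

theorem en3 (alt : AltStmt) (dn3 : Dn3Stmt) (qd3 : Qd3Stmt) : En3Stmt := by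
  classical
  intro ε hε
  obtain ⟨C₁, hC₁, h₁⟩ := dn3 (ε / 2) (by positivity)
  obtain ⟨C₂, hC₂, h₂⟩ := qd3 (ε / 2) (by positivity)
  refine ⟨21 * C₁ * C₂, by positivity, ?_⟩
  intro N D K U G t b S hpar
  have hpar' := hpar
  obtain ⟨_, _, hD10, hD8, _, hG1, _, _, _, _, _, _, hS⟩ := hpar
  have hN1 : 1 ≤ N := by
    have : 1 ≤ D ^ 8 := Nat.one_le_pow _ _ (by omega)
    omega
  have hDN : D ≤ N := by
    exact (Nat.le_self_pow (by norm_num) D).trans hD8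
  have hNR : (1 : ℝ) ≤ N := by exact_mod_cast hN1
  have hN0 : (0 : ℝ) < N := by linarith
  have hDR : (0 : ℝ) < D := by
    have : 0 < D := by omega
    exact_mod_cast this
  have hDNR : (D : ℝ) ≤ N := by exact_mod_cast hDN
  have hG0 : 0 < G := by linarith
  set PE : (ℕ × ℕ × ℕ × ℤ) × (ℕ × ℕ × ℕ × ℤ) → Prop := fun v =>
    v.1 ∈ P3g N S ∧ v.2 ∈ P3g N S ∧
        Close3 K t v ∧ v.1.2.2.1 = v.2.2.2.1 ∧ Z3 v.1 = Z3 v.2 ∧ V3 v.1 ≠ V3 v.2 with hPE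
  set PB : (ℕ × ℕ × ℕ × ℤ) × (ℕ × ℕ × ℕ × ℤ) → Prop := fun v => PE v ∧
    Nr (t * ((20 * (v.1.2.2.1 : ℤ) * (V3 v.1 - V3 v.2) : ℤ) : ℝ))
          (1 / ((D : ℝ) ^ 2 * (K : ℝ) ^ 3)) with hPB
  set PC : (ℕ × ℕ × ℕ × ℤ) × (ℕ × ℕ × ℕ × ℤ) → Prop := fun v => PE v ∧
    ¬ Nr (t * ((20 * (v.1.2.2.1 : ℤ) * (V3 v.1 - V3 v.2) : ℤ) : ℝ))
          (1 / ((D : ℝ) ^ 2 * (K : ℝ) ^ 3)) with hPC
  have hfE : ∀ {Q : (ℕ × ℕ × ℕ × ℤ) × (ℕ × ℕ × ℕ × ℤ) → Prop}, (∀ v, Q v → PE v) →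
      {v | Q v}.Finite := fun hQ => fin_pairs (fun v hv => ⟨(hQ v hv).1, (hQ v hv).2.1⟩)
  have hsplit : (Nat.card {v // PE v} : ℝ) ≤
      (Nat.card {v // PB v} : ℝ) + (Nat.card {v // PC v} : ℝ) := by
    have := card_or_le (P := PE) (Q := PB) (R := PC) (hfE (fun v hv => hv.1))
      (hfE (fun v hv => hv.1)) (fun v hv => by
        by_cases h : Nr (t * ((20 * (v.1.2.2.1 : ℤ) * (V3 v.1 - V3 v.2) : ℤ) : ℝ))
          (1 / ((D : ℝ) ^ 2 * (K : ℝ) ^ 3))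
        · exact Or.inl ⟨hv, h⟩
        · exact Or.inr ⟨hv, h⟩)
    exact_mod_cast this
  -- case B
  have hcB : (Nat.card {v // PB v} : ℝ) ≤
      (C₁ * (N : ℝ) ^ (ε / 2) * (D : ℝ) ^ 1 * G) * ((C₂ * (N : ℝ) ^ (2 + ε / 2)) * (3 * N)) := by
    refine assemble (i := 1) PB (fun v hv => ⟨hv.1.1, hv.1.2.1, hv.1.2.2.2.2.2⟩) ?_
      (h₁ N D K U G t b S hpar' 1 (by norm_num) (by norm_num)) (fun n => h₂ N n hN1)
      (by positivity) ?_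
    · intro v hv
      have := hv.2
      simpa using this
    · intro d hd n x
      have h3 : (Nat.card {v // (PB v ∧ kdn v = (d, n)) ∧ kq v = x} : ℝ) ≤
          (Nat.card {z : ℤ // |z| ≤ (N : ℤ) ∧ ((1 : ℕ) : ℤ) ∣ z - 0} : ℝ) := by
        have := card_inj_le (P := fun v => (PB v ∧ kdn v = (d, n)) ∧ kq v = x)
          (Q := fun z : ℤ => |z| ≤ (N : ℤ) ∧ ((1 : ℕ) : ℤ) ∣ z - 0)
          (fun v => v.1.2.2.2) ?_ ?_ ?_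
        · exact_mod_cast this
        · refine (Set.finite_Icc (-(N : ℤ)) (N : ℤ)).subset ?_
          intro z hz
          exact ⟨(abs_le.mp hz.1).1, (abs_le.mp hz.1).2⟩
        · rintro v ⟨⟨hv, _⟩, _⟩
          refine ⟨(mem_P3g hv.1.1).2.2.2.2.2, by simp⟩
        · rintro v w ⟨⟨hv, hvk⟩, hvq⟩ ⟨⟨hw, hwk⟩, hwq⟩ hr
          have hq : kq v = kq w := hvq.trans hwq.symm
          refine pair_ext hv.1.2.2.2.1 hv.1.2.2.2.2.1 hw.1.2.2.2.1 hw.1.2.2.2.2.1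
            (hvk.trans hwk.symm) hq ?_
          have e1 : v.1.1 = w.1.1 := congrArg (fun x => x.1.1) hq
          have e2 : v.1.2.1 = w.1.2.1 := congrArg (fun x => x.1.2) hq
          unfold Z3
          rw [e1, e2]
          have e3 : v.1.2.2.2 = w.1.2.2.2 := hr
          rw [e3]
      have h4 := card_class N 1 le_rfl 0
      have h5 : 1 + 2 * (N : ℝ) / ((1 : ℕ) : ℝ) ≤ 3 * N := by
        push_cast
        rw [div_one]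
        linarith
      exact h3.trans (h4.trans h5)
  -- case C
  have hcC : (Nat.card {v // PC v} : ℝ) ≤
      (C₁ * (N : ℝ) ^ (ε / 2) * (D : ℝ) ^ 2 * G) *
        ((C₂ * (N : ℝ) ^ (2 + ε / 2)) * (18 * (N : ℝ) / D)) := by
    refine assemble (i := 2) PC (fun v hv => ⟨hv.1.1, hv.1.2.1, hv.1.2.2.2.2.2⟩) ?_
      (h₁ N D K U G t b S hpar' 2 (by norm_num) (by norm_num)) (fun n => h₂ N n hN1)
      (by positivity) ?_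
    · intro v hv
      have := (alt N D K U G t b S hpar' v.1 hv.1.1 v.2 hv.1.2.1 hv.1.2.2.1 hv.1.2.2.2.1
        hv.1.2.2.2.2.1).1
      simpa using this
    · intro d hd n x
      obtain ⟨hdD, _, _⟩ := hS d hd
      have hd1 : 1 ≤ d := by omega
      by_cases hne : ∃ v, (PC v ∧ kdn v = (d, n)) ∧ kq v = x
      · obtain ⟨v₀, ⟨hv₀, hk₀⟩, hq₀⟩ := hne
        have hcl := (alt N D K U G t b S hpar' v₀.1 hv₀.1.1 v₀.2 hv₀.1.2.1 hv₀.1.2.2.1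
          hv₀.1.2.2.2.1 hv₀.1.2.2.2.2.1).2.resolve_left hv₀.2
        have hd₀ : v₀.1.2.2.1 = d := congrArg Prod.fst hk₀
        have hZ4 : ∀ p ∈ P3g N S, |Z3 p| ≤ ((4 * N : ℕ) : ℤ) := by
          intro p hp
          obtain ⟨a1, a2, a3, a4, _, a6⟩ := mem_P3g hp
          have a6' := abs_le.mp a6
          unfold Z3
          push_cast
          rw [abs_le]
          constructor <;> [skip; skip] <;> omega
        have h3 : (Nat.card {v // (PC v ∧ kdn v = (d, n)) ∧ kq v = x} : ℝ) ≤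
            (Nat.card {z : ℤ // (|z| ≤ ((4 * N : ℕ) : ℤ) ∧ (d : ℤ) ∣ z - Z3 v₀.1) ∨
              (|z| ≤ ((4 * N : ℕ) : ℤ) ∧ (d : ℤ) ∣ z - (-Z3 v₀.1))} : ℝ) := by
          have := card_inj_le (P := fun v => (PC v ∧ kdn v = (d, n)) ∧ kq v = x)
            (Q := fun z : ℤ => (|z| ≤ ((4 * N : ℕ) : ℤ) ∧ (d : ℤ) ∣ z - Z3 v₀.1) ∨
              (|z| ≤ ((4 * N : ℕ) : ℤ) ∧ (d : ℤ) ∣ z - (-Z3 v₀.1)))
            (fun v => Z3 v.1) ?_ ?_ ?_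
          · exact_mod_cast this
          · refine (Set.finite_Icc (-((4 * N : ℕ) : ℤ)) ((4 * N : ℕ) : ℤ)).subset ?_
            rintro z (hz | hz)
            · exact ⟨(abs_le.mp hz.1).1, (abs_le.mp hz.1).2⟩
            · exact ⟨(abs_le.mp hz.1).1, (abs_le.mp hz.1).2⟩
          · rintro v ⟨⟨hv, hvk⟩, hvq⟩
            have hq : kq v = kq v₀ := hvq.trans hq₀.symm
            have hk : kdn v = kdn v₀ := hvk.trans hk₀.symm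
            have e1 : v.1.1 = v₀.1.1 := congrArg (fun x => x.1.1) hq
            have e2 : v.1.2.1 = v₀.1.2.1 := congrArg (fun x => x.1.2) hq
            have e3 : v.2.1 = v₀.2.1 := congrArg (fun x => x.2.1) hq
            have e4 : v.2.2.1 = v₀.2.2.1 := congrArg (fun x => x.2.2) hq
            have e5 : v.1.2.2.1 = v₀.1.2.2.1 := by
              have h := congrArg Prod.fst hk
              simpa [kdn] using h
            have e6 : v.2.2.2.1 = v₀.2.2.2.1 := by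
              rw [← hv.1.2.2.2.1, ← hv₀.1.2.2.2.1, e5]
            have h4 := hcl v.1 hv.1.1 v.2 hv.1.2.1 hv.1.2.2.1 e1 e2 e5 e3 e4 e6 hv.1.2.2.2.2.1
            rw [hd₀] at h4
            have hZ := hZ4 v.1 hv.1.1
            rcases h4 with h4 | h4
            · left
              refine ⟨hZ, ?_⟩
              have := (dvd_neg (a := (d : ℤ))).mpr h4
              have e : -(Z3 v₀.1 - Z3 v.1) = Z3 v.1 - Z3 v₀.1 := by ring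
              rwa [e] at this
            · right
              refine ⟨hZ, ?_⟩
              have e : Z3 v₀.1 + Z3 v.1 = Z3 v.1 - (-Z3 v₀.1) := by ring
              rwa [e] at h4
          · rintro v w ⟨⟨hv, hvk⟩, hvq⟩ ⟨⟨hw, hwk⟩, hwq⟩ hr
            exact pair_ext hv.1.2.2.2.1 hv.1.2.2.2.2.1 hw.1.2.2.2.1 hw.1.2.2.2.2.1
              (hvk.trans hwk.symm) (hvq.trans hwq.symm) hr
        have hfin : ∀ c : ℤ, {z : ℤ | |z| ≤ ((4 * N : ℕ) : ℤ) ∧ (d : ℤ) ∣ z - c}.Finite := by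
          intro c
          refine (Set.finite_Icc (-((4 * N : ℕ) : ℤ)) ((4 * N : ℕ) : ℤ)).subset ?_
          intro z hz
          exact ⟨(abs_le.mp hz.1).1, (abs_le.mp hz.1).2⟩
        have h5 := card_or_le
          (P := fun z : ℤ => (|z| ≤ ((4 * N : ℕ) : ℤ) ∧ (d : ℤ) ∣ z - Z3 v₀.1) ∨
              (|z| ≤ ((4 * N : ℕ) : ℤ) ∧ (d : ℤ) ∣ z - (-Z3 v₀.1)))
          (hfin (Z3 v₀.1)) (hfin (-Z3 v₀.1)) (fun z hz => hz)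
        have h6 := card_class (4 * N) d hd1 (Z3 v₀.1)
        have h7 := card_class (4 * N) d hd1 (-Z3 v₀.1)
        have h5' : (Nat.card {z : ℤ // (|z| ≤ ((4 * N : ℕ) : ℤ) ∧ (d : ℤ) ∣ z - Z3 v₀.1) ∨
              (|z| ≤ ((4 * N : ℕ) : ℤ) ∧ (d : ℤ) ∣ z - (-Z3 v₀.1))} : ℝ) ≤
            (Nat.card {z : ℤ // |z| ≤ ((4 * N : ℕ) : ℤ) ∧ (d : ℤ) ∣ z - Z3 v₀.1} : ℝ) +
            (Nat.card {z : ℤ // |z| ≤ ((4 * N : ℕ) : ℤ) ∧ (d : ℤ) ∣ z - (-Z3 v₀.1)} : ℝ) := by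
          exact_mod_cast h5
        have hdR : (D : ℝ) ≤ d := by exact_mod_cast hdD.le
        have h8 : 2 * ((4 * N : ℕ) : ℝ) / (d : ℝ) ≤ 8 * (N : ℝ) / D := by
          push_cast
          rw [show 2 * (4 * (N : ℝ)) = 8 * N by ring]
          exact div_le_div_of_nonneg_left (by positivity) hDR hdR
        have h9 : 1 ≤ (N : ℝ) / D := by rw [le_div_iff₀ hDR]; linarith
        have h10 : 18 * (N : ℝ) / D = 2 * ((N : ℝ) / D) + 2 * (8 * (N : ℝ) / D) := by ring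
        rw [h10]
        linarith
      · have : IsEmpty {v // (PC v ∧ kdn v = (d, n)) ∧ kq v = x} :=
          ⟨fun v => hne ⟨v.1, v.2⟩⟩
        rw [Nat.card_of_isEmpty]
        push_cast
        positivity
  have hpow : (N : ℝ) ^ (ε / 2) * ((N : ℝ) ^ (2 + ε / 2) * (N : ℝ)) = (N : ℝ) ^ (3 + ε) := by
    conv_lhs => rw [← Real.rpow_one (N : ℝ)]
    rw [Real.rpow_one, ← Real.rpow_add_one (by positivity), ← Real.rpow_add hN0]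
    congr 1
    ring
  have hB' : (C₁ * (N : ℝ) ^ (ε / 2) * (D : ℝ) ^ 1 * G) *
      ((C₂ * (N : ℝ) ^ (2 + ε / 2)) * (3 * N)) = 3 * C₁ * C₂ * (N : ℝ) ^ (3 + ε) * D * G := by
    rw [← hpow]; ring
  have hC' : (C₁ * (N : ℝ) ^ (ε / 2) * (D : ℝ) ^ 2 * G) *
        ((C₂ * (N : ℝ) ^ (2 + ε / 2)) * (18 * (N : ℝ) / D)) =
      18 * C₁ * C₂ * (N : ℝ) ^ (3 + ε) * D * G := by
    rw [← hpow]; field_simp
  rw [hB'] at hcB
  rw [hC'] at hcC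
  have hfinal : 21 * C₁ * C₂ * (N : ℝ) ^ (3 + ε) * D * G =
      3 * C₁ * C₂ * (N : ℝ) ^ (3 + ε) * D * G + 18 * C₁ * C₂ * (N : ℝ) ^ (3 + ε) * D * G := by
    ring
  rw [hfinal]
  linarith

end Pool.Agent.VM5.H43
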