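import Pool.Agent.VM5.StmtsB
import Pool.Agent.Helper98_VM5.Kit
import Pool.Agent.Helper65_VM5.Ebc

/-! HPw: the number of `h'` for given `(h, d, d')`, and EBw: the pairs with `d = d'`. -/

set_option autoImplicit false

namespace Pool.Agent.VM5.H43

open Pool.Agent.VM (Nr)
open Pool.Agent.VM5.Kit

theorem hpw : HpwStmt := by
  classical
  refine ⟨5001, by norm_num, ?_⟩
  intro N D K u t b S hpar h d d' h1 hN hd hd'
  obtain ⟨h4DK, h5DK, hD10, _, _, _, _, hu1, _, hW, _, hNW, hS⟩ := hpar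
  obtain ⟨hd1, _, hdp, hdu⟩ := hS d' hd'
  have hN1 : 1 ≤ N := h1.trans hN
  have hK1 : 1 ≤ K := by
    rcases Nat.eq_zero_or_pos K with h0 | h0
    · rw [h0] at h5DK; omega
    · exact h0
  have hNR : (1 : ℝ) ≤ N := by exact_mod_cast hN1
  have hKR : (1 : ℝ) ≤ K := by exact_mod_cast hK1
  have huR : (1 : ℝ) ≤ u := by exact_mod_cast hu1
  have hDR : (10 : ℝ) < D := by exact_mod_cast hD10
  have hu0 : (0 : ℝ) < u := by linarith
  have hDd : (D : ℝ) ≤ d' := by exact_mod_cast hd1.le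
  have h5R : (N : ℝ) ≤ 5 * D * K := by exact_mod_cast h5DK
  set β := |t - (b : ℝ) / (u : ℝ)| with hβ
  have hβ0 : 0 ≤ β := abs_nonneg _
  set P : ℕ → Prop := fun h' => 1 ≤ h' ∧ h' ≤ N ∧
        (u : ℤ) ∣ 5 * ((h : ℤ) * (d : ℤ) ^ 4 - (h' : ℤ) * (d' : ℤ) ^ 4) ∧
        β * (5 * |(h : ℝ) * (d : ℝ) ^ 4 - (h' : ℝ) * (d' : ℝ) ^ 4|) ≤
          1 / (K : ℝ) ^ 4 with hP
  have hc := card_eq_filter (P := P) (Finset.Icc 1 N)
    (fun x hx => Finset.mem_Icc.mpr ⟨hx.1, hx.2.1⟩)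
  show (Nat.card {h' : ℕ // P h'} : ℝ) ≤ 5001
  rw [hc]
  have hcop : IsCoprime (u : ℤ) ((d' : ℤ) ^ 4) := by
    apply IsCoprime.pow_right
    rw [Nat.isCoprime_iff_coprime]
    exact (Nat.Coprime.symm ((Nat.Prime.coprime_iff_not_dvd hdp).mpr hdu))
  have hspace : ∀ x ∈ (Finset.Icc 1 N).filter P, ∀ y ∈ (Finset.Icc 1 N).filter P, x ≠ y →
      (u : ℝ) / 5 ≤ |(x : ℝ) - (y : ℝ)| := by
    intro x hx y hy hxy
    obtain ⟨_, _, hx3, _⟩ := (Finset.mem_filter.mp hx).2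
    obtain ⟨_, _, hy3, _⟩ := (Finset.mem_filter.mp hy).2
    have h2 := dvd_sub hy3 hx3
    have e : 5 * ((h : ℤ) * (d : ℤ) ^ 4 - (y : ℤ) * (d' : ℤ) ^ 4) -
        5 * ((h : ℤ) * (d : ℤ) ^ 4 - (x : ℤ) * (d' : ℤ) ^ 4) =
        (d' : ℤ) ^ 4 * (5 * ((x : ℤ) - (y : ℤ))) := by ring
    rw [e] at h2
    have h3 := hcop.dvd_of_dvd_mul_left h2
    have h4 : 5 * ((x : ℤ) - (y : ℤ)) ≠ 0 := by
      intro h0
      apply hxy
      omega
    have h5 := Int.le_of_dvd (abs_pos.mpr h4) ((dvd_abs _ _).mpr h3)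
    have h6 : (u : ℝ) ≤ ((|5 * ((x : ℤ) - (y : ℤ))| : ℤ) : ℝ) := by exact_mod_cast h5
    push_cast at h6
    rw [abs_mul, abs_of_pos (by norm_num : (0 : ℝ) < 5)] at h6
    linarith
  have hN4 : (N : ℝ) ^ 4 ≤ 625 * ((d' : ℝ) ^ 4 * (K : ℝ) ^ 4) := by
    have h6 : (N : ℝ) ≤ 5 * d' * K := by
      refine h5R.trans ?_
      gcongr
    have h7 : (N : ℝ) ^ 4 ≤ (5 * d' * K) ^ 4 := by gcongr
    calc (N : ℝ) ^ 4 ≤ (5 * d' * K) ^ 4 := h7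
      _ = _ := by ring
  have hdist : ∀ x ∈ (Finset.Icc 1 N).filter P, ∀ y ∈ (Finset.Icc 1 N).filter P,
      |(x : ℝ) - (y : ℝ)| ≤ (N : ℝ) ∧ β * (|(x : ℝ) - (y : ℝ)| * (N : ℝ) ^ 4) ≤ 250 := by
    intro x hx y hy
    obtain ⟨hx1, hx2, _, hx4⟩ := (Finset.mem_filter.mp hx).2
    obtain ⟨hy1, hy2, _, hy4⟩ := (Finset.mem_filter.mp hy).2
    have hx1' : (1 : ℝ) ≤ x := by exact_mod_cast hx1
    have hx2' : (x : ℝ) ≤ N := by exact_mod_cast hx2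
    have hy1' : (1 : ℝ) ≤ y := by exact_mod_cast hy1
    have hy2' : (y : ℝ) ≤ N := by exact_mod_cast hy2
    refine ⟨by rw [abs_le]; constructor <;> linarith, ?_⟩
    have e : |(x : ℝ) - (y : ℝ)| * (d' : ℝ) ^ 4 ≤
        |(h : ℝ) * (d : ℝ) ^ 4 - (x : ℝ) * (d' : ℝ) ^ 4| +
        |(h : ℝ) * (d : ℝ) ^ 4 - (y : ℝ) * (d' : ℝ) ^ 4| := by
      have h8 := abs_sub ((h : ℝ) * (d : ℝ) ^ 4 - (y : ℝ) * (d' : ℝ) ^ 4)
        ((h : ℝ) * (d : ℝ) ^ 4 - (x : ℝ) * (d' : ℝ) ^ 4)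
      have h9 : (h : ℝ) * (d : ℝ) ^ 4 - (y : ℝ) * (d' : ℝ) ^ 4 -
        ((h : ℝ) * (d : ℝ) ^ 4 - (x : ℝ) * (d' : ℝ) ^ 4) = ((x : ℝ) - y) * (d' : ℝ) ^ 4 := by ring
      rw [h9, abs_mul, abs_of_nonneg (by positivity : (0 : ℝ) ≤ (d' : ℝ) ^ 4)] at h8
      linarith
    have h10 : β * (5 * (|(x : ℝ) - (y : ℝ)| * (d' : ℝ) ^ 4)) ≤ 2 / (K : ℝ) ^ 4 := by
      have h11 : β * (5 * (|(x : ℝ) - (y : ℝ)| * (d' : ℝ) ^ 4)) ≤
          β * (5 * |(h : ℝ) * (d : ℝ) ^ 4 - (x : ℝ) * (d' : ℝ) ^ 4|) +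
          β * (5 * |(h : ℝ) * (d : ℝ) ^ 4 - (y : ℝ) * (d' : ℝ) ^ 4|) := by
        rw [← mul_add, ← mul_add]
        gcongr
      have h12 : 2 / (K : ℝ) ^ 4 = 1 / (K : ℝ) ^ 4 + 1 / (K : ℝ) ^ 4 := by ring
      rw [h12]
      linarith
    rw [le_div_iff₀ (by positivity)] at h10
    calc β * (|(x : ℝ) - (y : ℝ)| * (N : ℝ) ^ 4) ≤
        β * (|(x : ℝ) - (y : ℝ)| * (625 * ((d' : ℝ) ^ 4 * (K : ℝ) ^ 4))) := by gcongr
      _ = 125 * (β * (5 * (|(x : ℝ) - (y : ℝ)| * (d' : ℝ) ^ 4)) * (K : ℝ) ^ 4) := by ring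
      _ ≤ 250 := by linarith
  rcases max_cases (u : ℝ) (β * (u : ℝ) * (N : ℝ) ^ 5) with ⟨hm, hle⟩ | ⟨hm, hlt⟩
  · -- W = u
    have hNu : (N : ℝ) ≤ 4 * u := by
      have : WW N u t b = (u : ℝ) := hm
      rw [this] at hNW
      exact hNW
    have := card_spaced ((Finset.Icc 1 N).filter P) (fun x : ℕ => (x : ℝ)) ((u : ℝ) / 5) (N : ℝ)
      (by positivity) (by positivity) hspace (fun x hx y hy => (hdist x hx y hy).1)
    have h6 : (N : ℝ) / ((u : ℝ) / 5) ≤ 20 := by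
      rw [div_le_iff₀ (by positivity)]
      linarith
    linarith
  · have hNB : (N : ℝ) ≤ 4 * (β * (u : ℝ) * (N : ℝ) ^ 5) := by
      have : WW N u t b = β * (u : ℝ) * (N : ℝ) ^ 5 := hm
      rw [this] at hNW
      exact hNW
    have h1B : 1 ≤ 4 * (β * (u : ℝ) * (N : ℝ) ^ 4) := by
      have h7 : (N : ℝ) * 1 ≤ (N : ℝ) * (4 * (β * (u : ℝ) * (N : ℝ) ^ 4)) := by
        calc (N : ℝ) * 1 ≤ 4 * (β * (u : ℝ) * (N : ℝ) ^ 5) := by rw [mul_one]; exact hNB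
          _ = _ := by ring
      exact le_of_mul_le_mul_left h7 (by linarith)
    have := card_spaced ((Finset.Icc 1 N).filter P) (fun x : ℕ => (x : ℝ)) ((u : ℝ) / 5)
      (1000 * u) (by positivity) (by positivity) hspace (fun x hx y hy => by
        have h8 := (hdist x hx y hy).2
        have h9 : |(x : ℝ) - (y : ℝ)| * 1 ≤
            |(x : ℝ) - (y : ℝ)| * (4 * (β * (u : ℝ) * (N : ℝ) ^ 4)) :=
          mul_le_mul_of_nonneg_left h1B (abs_nonneg _)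
        have h10 : |(x : ℝ) - (y : ℝ)| * (4 * (β * (u : ℝ) * (N : ℝ) ^ 4)) =
            4 * u * (β * (|(x : ℝ) - (y : ℝ)| * (N : ℝ) ^ 4)) := by ring
        have h11 : 4 * u * (β * (|(x : ℝ) - (y : ℝ)| * (N : ℝ) ^ 4)) ≤ 4 * u * 250 :=
          mul_le_mul_of_nonneg_left h8 (by positivity)
        linarith)
    have h6 : 1000 * (u : ℝ) / ((u : ℝ) / 5) = 5000 := by
      field_simp
      norm_num
    linarith

theorem ebw (sgw : SgwStmt) (rsw : RswStmt) (hpw : HpwStmt) : EbwStmt := by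
  classical
  intro ε hε
  obtain ⟨C₀, hC₀, hR⟩ := rsw ε hε
  obtain ⟨C₁, hC₁, hsig⟩ := sgw
  obtain ⟨C₂, hC₂, hH⟩ := hpw
  refine ⟨3 * C₂ * (1 + C₀), by positivity, ?_⟩
  intro N D K u t b S hPar
  have hPar' := hPar
  obtain ⟨h4, hN, hD, -, -, -, -, hu1, -, hWW, -, -, hS⟩ := hPar'
  have hur : (1 : ℝ) ≤ (u : ℝ) := by exact_mod_cast hu1
  have hK : 1 ≤ K := by
    rcases Nat.eq_zero_or_pos K with h0 | h0
    · exfalso
      have hw : (u : ℝ) ≤ WW N u t b := le_max_left _ _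
      rw [h0] at hWW
      norm_num at hWW
      linarith
    · exact h0
  have hN1 : 1 ≤ N := by nlinarith
  have hNr : (1 : ℝ) ≤ (N : ℝ) := by exact_mod_cast hN1
  -- the finset
  obtain ⟨F, hF⟩ : ∃ F : Finset ((ℕ × ℕ × ℤ) × (ℕ × ℕ × ℤ)), F = (P2 N S ×ˢ P2 N S).filter
      (fun v => Close2 K t v ∧ v.1.2.1 = v.2.2.1) := ⟨_, rfl⟩
  have hcard : Nat.card {v : (ℕ × ℕ × ℤ) × (ℕ × ℕ × ℤ) // v.1 ∈ P2 N S ∧ v.2 ∈ P2 N S ∧
        Close2 K t v ∧ v.1.2.1 = v.2.2.1} = F.card := by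
    rw [hF]
    rw [Nat.subtype_card]
    intro v
    simp only [Finset.mem_filter, Finset.mem_product]
    tauto
  rw [hcard]
  obtain ⟨Q, hQ⟩ : ∃ Q : ℕ → ℕ → ℕ → Prop, Q = fun (d h h' : ℕ) =>
      (u : ℤ) ∣ 5 * ((h : ℤ) * (d : ℤ) ^ 4 - (h' : ℤ) * (d : ℤ) ^ 4) ∧
        |t - (b : ℝ) / (u : ℝ)| * (5 * |(h : ℝ) * (d : ℝ) ^ 4 - (h' : ℝ) * (d : ℝ) ^ 4|) ≤
          1 / (K : ℝ) ^ 4 := ⟨_, rfl⟩
  have hQc : ∀ d ∈ S, ∀ h ∈ Finset.Icc 1 N,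
      (((Finset.Icc 1 N).filter (fun h' : ℕ => Q d h h')).card : ℝ) ≤ C₂ := by
    intro d hd h hh
    rw [Finset.mem_Icc] at hh
    have h1 := hH N D K u t b S hPar h d d hh.1 hh.2 hd hd
    have h2 : Nat.card {h' : ℕ // 1 ≤ h' ∧ h' ≤ N ∧
        (u : ℤ) ∣ 5 * ((h : ℤ) * (d : ℤ) ^ 4 - (h' : ℤ) * (d : ℤ) ^ 4) ∧
        |t - (b : ℝ) / (u : ℝ)| * (5 * |(h : ℝ) * (d : ℝ) ^ 4 - (h' : ℝ) * (d : ℝ) ^ 4|) ≤
          1 / (K : ℝ) ^ 4} = ((Finset.Icc 1 N).filter (fun h' : ℕ => Q d h h')).card := by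
      rw [Nat.subtype_card]
      intro x
      rw [hQ]
      simp only [Finset.mem_filter, Finset.mem_Icc]
      tauto
    rw [← h2]
    exact h1
  obtain ⟨T, hT⟩ : ∃ T : Finset (ℕ × ℕ × ℕ × ℤ), T = (S ×ˢ (Finset.Icc 1 N) ×ˢ (Finset.Icc 1 N) ×ˢ
      (Finset.Icc (-(N : ℤ)) (N : ℤ))).filter
      (fun k => Q k.1 k.2.1 k.2.2.1) := ⟨_, rfl⟩
  have hmap : ∀ v ∈ F, (v.1.2.1, v.1.1, v.2.1, v.2.2.2) ∈ T := by
    intro v hv
    rw [hF, Finset.mem_filter, Finset.mem_product] at hv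
    obtain ⟨⟨hv1, hv2⟩, hcl, hdd⟩ := hv
    obtain ⟨⟨a1, a2⟩, a3, -⟩ := H65.mem_P2 hv1
    obtain ⟨⟨b1, b2⟩, b3, b4, b5⟩ := H65.mem_P2 hv2
    rw [hT, Finset.mem_filter]
    simp only [Finset.mem_product, Finset.mem_Icc]
    refine ⟨⟨a3, ⟨a1, a2⟩, ⟨b1, b2⟩, b4, b5⟩, ?_⟩
    obtain ⟨⟨h1, h2⟩, -⟩ := hsig N D K u t b S hPar v.1 hv1 v.2 hv2 hcl
    have e : m4 v.1 - m4 v.2 =
        5 * ((v.1.1 : ℤ) * (v.1.2.1 : ℤ) ^ 4 - (v.2.1 : ℤ) * (v.1.2.1 : ℤ) ^ 4) := by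
      unfold m4
      rw [← hdd]
      ring
    rw [hQ]
    refine ⟨by rw [← e]; exact h1, ?_⟩
    have e2 : (m4 v.1 : ℝ) - (m4 v.2 : ℝ) =
        5 * ((v.1.1 : ℝ) * (v.1.2.1 : ℝ) ^ 4 - (v.2.1 : ℝ) * (v.1.2.1 : ℝ) ^ 4) := by
      exact_mod_cast e
    rw [e2, abs_mul, abs_mul, abs_of_pos (by norm_num : (0 : ℝ) < 5)] at h2
    exact h2
  have hsum : F.card ≤ ∑ k ∈ T, (1 + (H65.Rf N K t k.2.1 k.1).card) := by
    rw [Finset.card_eq_sum_card_fiberwise (f := fun v : (ℕ × ℕ × ℤ) × (ℕ × ℕ × ℤ) =>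
      (v.1.2.1, v.1.1, v.2.1, v.2.2.2)) (t := T) (fun v hv => hmap v hv)]
    apply Finset.sum_le_sum
    intro k hk
    apply H65.fib_card (S := S) (h' := k.2.2.1) (r' := k.2.2.2)
    intro v hv
    rw [Finset.mem_filter] at hv
    obtain ⟨hv1, hv2⟩ := hv
    rw [hF, Finset.mem_filter, Finset.mem_product] at hv1
    obtain ⟨⟨c1, c2⟩, c3, c4⟩ := hv1
    refine ⟨c1, c2, c3, c4, ?_, ?_, ?_, ?_⟩
    · rw [← hv2]
    · rw [← hv2]
    · rw [← hv2]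
    · rw [← hv2]
  have hTsum : (∑ k ∈ T, (1 + (H65.Rf N K t k.2.1 k.1).card : ℕ) : ℕ) =
      ∑ d ∈ S, ∑ h ∈ Finset.Icc 1 N,
        ((Finset.Icc 1 N).filter (fun h' : ℕ => Q d h h')).card *
          ((2 * N + 1) * (1 + (H65.Rf N K t h d).card)) := by
    rw [hT, Finset.sum_filter, Finset.sum_product]
    apply Finset.sum_congr rfl
    intro d _
    rw [Finset.sum_product]
    apply Finset.sum_congr rfl
    intro h _
    rw [Finset.sum_product, Finset.card_filter, Finset.sum_mul]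
    apply Finset.sum_congr rfl
    intro h' _
    have hc : (Finset.Icc (-(N : ℤ)) (N : ℤ)).card = 2 * N + 1 := by
      rw [Int.card_Icc]; omega
    by_cases hh : Q d h h'
    · simp only [hh, if_true]
      rw [Finset.sum_const, hc, smul_eq_mul, one_mul]
    · simp only [hh, if_false]
      rw [Finset.sum_const_zero, zero_mul]
  have hScard : (S.card : ℝ) ≤ (D : ℝ) := by
    have h1 : S ⊆ Finset.Ioc D (2 * D) := by
      intro d hd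
      obtain ⟨x1, x2, -⟩ := hS d hd
      rw [Finset.mem_Ioc]
      exact ⟨x1, x2⟩
    have h2 := Finset.card_le_card h1
    rw [Nat.card_Ioc] at h2
    have h3 : S.card ≤ D := by omega
    exact_mod_cast h3
  have hpow : (1 : ℝ) ≤ (N : ℝ) ^ ε := Real.one_le_rpow hNr hε.le
  have hpow2 : (N : ℝ) ^ (1 + ε) = (N : ℝ) * (N : ℝ) ^ ε := by
    rw [Real.rpow_add (by linarith), Real.rpow_one]
  have hpow3 : (N : ℝ) ^ (2 + ε) = (N : ℝ) ^ 2 * (N : ℝ) ^ ε := by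
    rw [Real.rpow_add (by linarith)]
    norm_num
  have hreal : (F.card : ℝ) ≤ ∑ d ∈ S, C₂ * (3 * (N : ℝ)) *
      ((N : ℝ) + C₀ * (N : ℝ) ^ (1 + ε)) := by
    have h1 : (F.card : ℝ) ≤ ((∑ k ∈ T, (1 + (H65.Rf N K t k.2.1 k.1).card : ℕ) : ℕ) : ℝ) := by
      exact_mod_cast hsum
    refine h1.trans ?_
    rw [hTsum]
    push_cast
    apply Finset.sum_le_sum
    intro d hd
    have hRd := hR N D K u t b S hPar d hd
    rw [← H65.rsm_sum] at hRd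
    push_cast at hRd
    calc ∑ h ∈ Finset.Icc 1 N,
        (((Finset.Icc 1 N).filter (fun h' : ℕ => Q d h h')).card : ℝ) *
          ((2 * (N : ℝ) + 1) * (1 + ((H65.Rf N K t h d).card : ℝ)))
        ≤ ∑ h ∈ Finset.Icc 1 N, C₂ *
          ((3 * (N : ℝ)) * (1 + ((H65.Rf N K t h d).card : ℝ))) := by
          apply Finset.sum_le_sum
          intro h hh
          apply mul_le_mul (hQc d hd h hh) _ (by positivity) (by positivity)
          apply mul_le_mul_of_nonneg_right _ (by positivity)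
          linarith
      _ = C₂ * (3 * (N : ℝ)) *
          ((N : ℝ) + ∑ h ∈ Finset.Icc 1 N, ((H65.Rf N K t h d).card : ℝ)) := by
          rw [← Finset.mul_sum, ← Finset.mul_sum, Finset.sum_add_distrib, Finset.sum_const,
            Nat.card_Icc]
          simp
          ring
      _ ≤ _ := by
          apply mul_le_mul_of_nonneg_left _ (by positivity)
          linarith
  rw [Finset.sum_const, nsmul_eq_mul] at hreal
  calc (F.card : ℝ) ≤ _ := hreal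
    _ ≤ (D : ℝ) * (C₂ * (3 * (N : ℝ)) *
      ((N : ℝ) * (N : ℝ) ^ ε + C₀ * (N : ℝ) ^ (1 + ε))) := by
        apply mul_le_mul hScard _ (by positivity) (by positivity)
        apply mul_le_mul_of_nonneg_left _ (by positivity)
        have : (N : ℝ) ≤ (N : ℝ) * (N : ℝ) ^ ε := by nlinarith
        linarith
    _ = 3 * C₂ * (1 + C₀) * (N : ℝ) ^ (2 + ε) * (D : ℝ) := by
        rw [hpow2, hpow3]
        ring

end Pool.Agent.VM5.H43
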